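import Mathlib
import Pool.Agent.Helper35.HSF.StB

/-!
# Project HSF (MP_925021_gt), module INC: the pinching keeps the hypersurface embedded
-/

set_option autoImplicit false

namespace Helper47.HSF

open Helper35.HSF Helper35.MS Helper35.PI Helper35.PI2 Helper32.CL
open scoped ContDiff Manifold Topology ENNReal BigOperators
open MeasureTheory Set Filter

/-- the norm of `A(c,c)` -/
private theorem An_le (hFR : StFR) {n N : ℕ} {f : EE n → EE N} {x : EE n} (h : LI f x)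
    (c : Fin n → ℝ) (hc : ‖∑ i, c i • dv1 f x i‖ ^ 2 = 1) :
    ‖∑ i, ∑ j, (c i * c j) • sff f x i j‖ ^ 2 ≤ nsq f x := by
  obtain ⟨-, -, P, -, hPu, -, hP3, -, -, hP6⟩ := hFR n N f x h
  obtain ⟨d, hd⟩ : ∃ d : Fin n → ℝ, ∀ i, c i = ∑ a, P i a * d a := by
    refine ⟨P⁻¹.mulVec c, fun i => ?_⟩
    have h1 : P.mulVec (P⁻¹.mulVec c) = c := by
      rw [Matrix.mulVec_mulVec, Matrix.mul_nonsing_inv _ hPu, Matrix.one_mulVec]
    exact (congrFun h1 i).symm
  obtain ⟨e, he⟩ : ∃ e : Fin n → EE N, e = fun a => ∑ i, P i a • dv1 f x i := ⟨_, rfl⟩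
  obtain ⟨Ah, hAh⟩ : ∃ Ah : Fin n → Fin n → EE N,
      Ah = fun a b => ∑ i, ∑ j, (P i a * P j b) • sff f x i j := ⟨_, rfl⟩
  have h1 : ∑ i, c i • dv1 f x i = ∑ a, d a • e a := by
    rw [he]
    simp only [hd, Finset.sum_smul, Finset.smul_sum, smul_smul]
    rw [Finset.sum_comm]
    refine Finset.sum_congr rfl fun a _ => Finset.sum_congr rfl fun i _ => ?_
    rw [mul_comm]
  have h2 : ∑ a, d a ^ 2 = 1 := by
    rw [← hc, h1, ← real_inner_self_eq_norm_sq, sum_inner]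
    refine Finset.sum_congr rfl fun a _ => ?_
    rw [inner_sum, Finset.sum_eq_single a]
    · rw [real_inner_smul_left, real_inner_smul_right, he, hP3 a a, if_pos rfl]
      ring
    · intro b _ hb
      rw [real_inner_smul_left, real_inner_smul_right, he, hP3 a b, if_neg (Ne.symm hb)]
      ring
    · intro ha
      exact absurd (Finset.mem_univ a) ha
  have h3 : ∑ i, ∑ j, (c i * c j) • sff f x i j = ∑ a, ∑ b, (d a * d b) • Ah a b := by
    rw [hAh]
    simp only [hd, Finset.sum_mul_sum, Finset.sum_smul, Finset.smul_sum, smul_smul]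
    have e1 : ∀ i : Fin n, ∑ j, ∑ a, ∑ b, (P i a * d a * (P j b * d b)) • sff f x i j =
        ∑ a, ∑ b, ∑ j, (P i a * d a * (P j b * d b)) • sff f x i j := by
      intro i
      rw [Finset.sum_comm]
      refine Finset.sum_congr rfl fun a _ => ?_
      rw [Finset.sum_comm]
    rw [Finset.sum_congr rfl fun i _ => e1 i, Finset.sum_comm]
    refine Finset.sum_congr rfl fun a _ => ?_
    rw [Finset.sum_comm]
    refine Finset.sum_congr rfl fun b _ => Finset.sum_congr rfl fun i _ =>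
      Finset.sum_congr rfl fun j _ => ?_
    congr 1
    ring
  have h4 : nsq f x = ∑ a, ∑ b, ‖Ah a b‖ ^ 2 := by
    unfold nsq
    rw [hP6 (sff f x) (sff f x), hAh]
    refine Finset.sum_congr rfl fun a _ => Finset.sum_congr rfl fun b _ => ?_
    rw [real_inner_self_eq_norm_sq]
  rw [h3, h4]
  have h5 : ‖∑ a, ∑ b, (d a * d b) • Ah a b‖ ≤
      ∑ p : Fin n × Fin n, |d p.1 * d p.2| * ‖Ah p.1 p.2‖ := by
    rw [← Fintype.sum_prod_type' (f := fun a b => (d a * d b) • Ah a b)]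
    refine (norm_sum_le _ _).trans (le_of_eq ?_)
    refine Finset.sum_congr rfl fun p _ => ?_
    rw [norm_smul, Real.norm_eq_abs]
  have h6 := Finset.sum_mul_sq_le_sq_mul_sq (Finset.univ : Finset (Fin n × Fin n))
    (fun p => |d p.1 * d p.2|) (fun p => ‖Ah p.1 p.2‖)
  have h7 : ∑ p : Fin n × Fin n, |d p.1 * d p.2| ^ 2 = 1 := by
    simp only [sq_abs, mul_pow]
    rw [Fintype.sum_prod_type' (f := fun a b => d a ^ 2 * d b ^ 2), ← Finset.sum_mul_sum, h2,
      mul_one]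
  have h8 : ∑ p : Fin n × Fin n, ‖Ah p.1 p.2‖ ^ 2 = ∑ a, ∑ b, ‖Ah a b‖ ^ 2 :=
    Fintype.sum_prod_type' (f := fun a b => ‖Ah a b‖ ^ 2)
  rw [h7, one_mul, h8] at h6
  exact (pow_le_pow_left₀ (norm_nonneg _) h5 2).trans h6

private theorem ne0 {n N : ℕ} (hn : 1 ≤ n) {f : EE n → EE N} {x : EE n} (h : LI f x) :
    ∃ i, dv1 f x i ≠ 0 := ⟨⟨0, hn⟩, h.ne_zero _⟩

private theorem unit_c {n N : ℕ} (hn : 1 ≤ n) {f : EE n → EE N} {x : EE n} (h : LI f x) :
    ∃ c : Fin n → ℝ, ‖∑ i, c i • dv1 f x i‖ ^ 2 = 1 := by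
  obtain ⟨i, hi⟩ := ne0 hn h
  refine ⟨Pi.single i (‖dv1 f x i‖⁻¹), ?_⟩
  rw [Finset.sum_eq_single i]
  · rw [Pi.single_eq_same, norm_smul, norm_inv, norm_norm,
      inv_mul_cancel₀ (norm_ne_zero_iff.2 hi), one_pow]
  · intro j _ hj
    rw [Pi.single_eq_of_ne hj, zero_smul]
  · intro hi'
    exact absurd (Finset.mem_univ i) hi'

private theorem diff {n N : ℕ} (hn : 1 ≤ n) {f : EE n → EE N} {x : EE n} (h : LI f x) :
    DifferentiableAt ℝ f x := by
  obtain ⟨i, hi⟩ := ne0 hn h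
  by_contra hcon
  apply hi
  unfold dv1
  rw [fderiv_zero_of_not_differentiableAt hcon]
  rfl

private theorem crit {n N : ℕ} {f : EE n → EE N} {x : EE n} (hd : DifferentiableAt ℝ f x)
    (Y : EE N) (hmin : IsLocalMin (fun y => ‖Y - f y‖ ^ 2) x) (i : Fin n) :
    (inner ℝ (dv1 f x i) (Y - f x) : ℝ) = 0 := by
  have h1 : HasFDerivAt (fun y => Y - f y) (-(fderiv ℝ f x)) x :=
    hd.hasFDerivAt.const_sub Y
  have h2 := h1.norm_sq
  have h3 := hmin.hasFDerivAt_eq_zero h2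
  have h4 := congrArg (fun L : EE n →L[ℝ] ℝ => L (ee i)) h3
  simp only [smul_apply, ContinuousLinearMap.comp_apply,
    neg_apply, innerSL_apply_apply, zero_apply,
    inner_neg_right] at h4
  rw [real_inner_comm]
  unfold dv1
  have h5 : (2 : ℕ) • -(inner ℝ (Y - f x) ((fderiv ℝ f x) (ee i)) : ℝ) = 0 := h4
  rw [nsmul_eq_mul] at h5
  push_cast at h5
  linarith

private theorem geo {n : ℕ} (X ν w : EE (n + 2)) (T : Submodule ℝ (EE (n + 2)))
    (hT : Module.finrank ℝ T = n) {r : ℝ} (hr : 0 < r) (hX : ‖X‖ ^ 2 = r) (hν : ‖ν‖ = 1)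
    (hXν : (inner ℝ X ν : ℝ) = 0) (hXT : ∀ v ∈ T, (inner ℝ v X : ℝ) = 0)
    (hνT : ∀ v ∈ T, (inner ℝ v ν : ℝ) = 0) (hwT : ∀ v ∈ T, (inner ℝ v w : ℝ) = 0) :
    ‖w‖ ^ 2 = (inner ℝ w X : ℝ) ^ 2 / r + (inner ℝ w ν : ℝ) ^ 2 := by
  obtain ⟨w', hw'⟩ : ∃ w', w' = w - (inner ℝ w X / r : ℝ) • X - (inner ℝ w ν : ℝ) • ν :=
    ⟨_, rfl⟩
  have hXX : (inner ℝ X X : ℝ) = r := by rw [real_inner_self_eq_norm_sq, hX]
  have hνν : (inner ℝ ν ν : ℝ) = 1 := by rw [real_inner_self_eq_norm_sq, hν, one_pow]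
  have hw'T : ∀ v ∈ T, (inner ℝ v w' : ℝ) = 0 := by
    intro v hv
    rw [hw', inner_sub_right, inner_sub_right, real_inner_smul_right, real_inner_smul_right,
      hwT v hv, hXT v hv, hνT v hv]
    ring
  have hνX : (inner ℝ ν X : ℝ) = 0 := by rw [real_inner_comm]; exact hXν
  have hw'X : (inner ℝ w' X : ℝ) = 0 := by
    rw [hw', inner_sub_left, inner_sub_left, real_inner_smul_left, real_inner_smul_left,
      hXX, hνX]
    field_simp
    ring
  have hw'ν : (inner ℝ w' ν : ℝ) = 0 := by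
    rw [hw', inner_sub_left, inner_sub_left, real_inner_smul_left, real_inner_smul_left,
      hXν, hνν]
    ring
  have h0 : w' = 0 := by
    by_contra hne
    have hfin : Module.finrank ℝ Tᗮ = 2 := by
      have := Submodule.finrank_add_finrank_orthogonal T
      rw [hT, finrank_euclideanSpace, Fintype.card_fin] at this
      omega
    have hmX : X ∈ Tᗮ := (Submodule.mem_orthogonal T X).2 hXT
    have hmν : ν ∈ Tᗮ := (Submodule.mem_orthogonal T ν).2 hνT
    have hmw : w' ∈ Tᗮ := (Submodule.mem_orthogonal T w').2 hw'T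
    have hX0 : X ≠ 0 := by
      rintro rfl
      rw [norm_zero] at hX
      norm_num at hX
      linarith
    have hν0 : ν ≠ 0 := by
      rintro rfl
      rw [norm_zero] at hν
      norm_num at hν
    have hli : LinearIndependent ℝ (![⟨X, hmX⟩, ⟨ν, hmν⟩, ⟨w', hmw⟩] : Fin 3 → Tᗮ) := by
      apply linearIndependent_of_ne_zero_of_inner_eq_zero (𝕜 := ℝ)
      · intro i
        fin_cases i
        · exact fun h => hX0 (congrArg Subtype.val h)
        · exact fun h => hν0 (congrArg Subtype.val h)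
        · exact fun h => hne (congrArg Subtype.val h)
      · have e1 : (inner ℝ X w' : ℝ) = 0 := by rw [real_inner_comm]; exact hw'X
        have e2 : (inner ℝ ν w' : ℝ) = 0 := by rw [real_inner_comm]; exact hw'ν
        intro i j hij
        fin_cases i <;> fin_cases j <;>
          first
            | exact absurd rfl hij
            | exact hXν
            | exact hνX
            | exact e1
            | exact e2
            | exact hw'X
            | exact hw'ν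
    have h3 := hli.fintype_card_le_finrank
    rw [hfin, Fintype.card_fin] at h3
    omega
  have h1 : w = (inner ℝ w X / r : ℝ) • X + (inner ℝ w ν : ℝ) • ν := by
    have h2 : w - (inner ℝ w X / r : ℝ) • X - (inner ℝ w ν : ℝ) • ν = 0 := by rw [← hw', h0]
    rw [sub_sub, sub_eq_zero] at h2
    exact h2
  rw [← real_inner_self_eq_norm_sq]
  calc (inner ℝ w w : ℝ) = inner ℝ w ((inner ℝ w X / r : ℝ) • X + (inner ℝ w ν : ℝ) • ν) := by
        rw [← h1]
    _ = _ := by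
        rw [inner_add_right, real_inner_smul_right, real_inner_smul_right]
        ring

private theorem span_perp {n N : ℕ} (b : Fin n → EE N) (X : EE N)
    (h : ∀ i, (inner ℝ (b i) X : ℝ) = 0) : ∀ v ∈ Submodule.span ℝ (range b),
    (inner ℝ v X : ℝ) = 0 := by
  intro v hv
  induction hv using Submodule.span_induction with
  | mem v hv =>
    obtain ⟨i, rfl⟩ := hv
    exact h i
  | zero => exact inner_zero_left _
  | add v w _ _ h1 h2 => rw [inner_add_left, h1, h2, add_zero]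
  | smul c v _ h1 => rw [real_inner_smul_left, h1, mul_zero]

/-- the inequality at the end -/
private theorem fin_ineq {k S r r0 D z z2 s0 : ℝ} (hk1 : k < 1) (hk0 : 0 < k) (hS : 0 ≤ S)
    (hr0 : 0 < r0) (hr : r0 ≤ r) (hD : 0 < D) (hs0 : s0 = (S + 1 + k / r0) / (1 - k) + 1)
    (hD1 : D < 4 / (s0 ^ 2 + 1 / r0 + 1)) (hz : z ^ 2 = 4 / D - 1 / r) (hz2 : |z2| ≤ S)
    (hp : (1 - k) * z ^ 2 - z * z2 < k / r) : False := by
  have h1k : 0 < 1 - k := by linarith
  have hkr : 0 < k / r0 := by positivity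
  have hs1 : 1 ≤ s0 := by
    rw [hs0]
    have : 0 ≤ (S + 1 + k / r0) / (1 - k) := by positivity
    linarith
  have hr1 : 1 / r ≤ 1 / r0 := one_div_le_one_div_of_le hr0 hr
  have hkr1 : k / r ≤ k / r0 := div_le_div_of_nonneg_left hk0.le hr0 hr
  have hpos : 0 < s0 ^ 2 + 1 / r0 + 1 := by positivity
  have h4 : s0 ^ 2 + 1 / r0 + 1 < 4 / D := by
    rw [lt_div_iff₀ hD]
    rw [lt_div_iff₀ hpos] at hD1
    linarith
  obtain ⟨s, hs, hs'⟩ : ∃ s, s = |z| ∧ 0 ≤ s := ⟨_, rfl, abs_nonneg z⟩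
  have hss : s ^ 2 = z ^ 2 := by rw [hs, sq_abs]
  have h5 : s0 ^ 2 < s ^ 2 := by
    rw [hss, hz]
    linarith
  have h6 : s0 < s := lt_of_pow_lt_pow_left₀ 2 hs' h5
  have h7 : z * z2 ≤ s * S := by
    calc z * z2 ≤ |z * z2| := le_abs_self _
      _ = s * |z2| := by rw [abs_mul, hs]
      _ ≤ s * S := mul_le_mul_of_nonneg_left hz2 hs'
  have h8 : S + 1 + k / r0 ≤ (1 - k) * s0 := by
    rw [hs0]
    have : (1 - k) * ((S + 1 + k / r0) / (1 - k) + 1) = (S + 1 + k / r0) + (1 - k) := by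
      field_simp
    rw [this]
    linarith
  have h9 : (1 - k) * s0 * s ≤ (1 - k) * s ^ 2 := by
    have := mul_le_mul_of_nonneg_left h6.le (mul_nonneg h1k.le hs')
    nlinarith
  have h10 : (S + 1 + k / r0) * s ≤ (1 - k) * s0 * s := mul_le_mul_of_nonneg_right h8 hs'
  have h11 : k / r0 ≤ k / r0 * s := by nlinarith
  rw [← hss] at hp
  nlinarith

/-- INC. -/
theorem hINC (hINO : StINO) (hI4J : StI4J) (_hI3J : StI3J) (hFR : StFR) : StINC := by
  intro n hn1 M _ _ _ _ _ J F ν hfl t₁ t₂ ht hIJ k hk0 hk1 hP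
  have hF : IsImmJ (n := n) J F := hfl.mcf.toIsImmJ
  have ht2J : t₂ ∈ J := hIJ ⟨ht.le, le_rfl⟩
  obtain ⟨hcF, -, hcA, -⟩ := hI4J n (n + 2) M J F hF
  by_contra hinj
  obtain ⟨x', y', hxy, hne⟩ : ∃ x' y', F x' t₂ = F y' t₂ ∧ x' ≠ y' := by
    unfold Function.Injective at hinj
    push Not at hinj
    exact hinj
  obtain ⟨⟨U, hU, hUd, δ, hδ, hUi⟩, -⟩ := hINO n (n + 2) M J F hF t₂ ht2J
  have hxyU : (x', y') ∉ U := fun h =>
    hne (hUi t₂ ht2J (by rw [sub_self, abs_zero]; exact hδ) (x', y') h hxy)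
  obtain ⟨V, hV, hdV, hVU⟩ := normal_exists_closure_subset (isClosed_diagonal (X := M)) hU
    (by
      rintro ⟨a, b⟩ hab
      have : a = b := hab
      subst this
      exact hUd a)
  have hK : IsCompact (Vᶜ : Set (M × M)) := hV.isClosed_compl.isCompact
  have hBd : IsCompact (closure V ∩ Vᶜ : Set (M × M)) :=
    (isClosed_closure.inter hV.isClosed_compl).isCompact
  have hnd : ∀ p : M × M, p ∈ (Vᶜ : Set (M × M)) → p.1 ≠ p.2 := by
    intro p hp h
    exact hp (hdV h)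
  -- the distance function
  have hG : ContinuousOn (fun q : (M × M) × ℝ => ‖F q.1.1 q.2 - F q.1.2 q.2‖)
      (univ ×ˢ J) := by
    refine ContinuousOn.norm (ContinuousOn.sub ?_ ?_)
    · exact hcF.comp (f := fun q : (M × M) × ℝ => (q.1.1, q.2)) (by fun_prop)
        (fun q hq => ⟨mem_univ _, hq.2⟩)
    · exact hcF.comp (f := fun q : (M × M) × ℝ => (q.1.2, q.2)) (by fun_prop)
        (fun q hq => ⟨mem_univ _, hq.2⟩)
  obtain ⟨t₃, ht31, ht32, ht3δ⟩ : ∃ t₃, t₁ ≤ t₃ ∧ t₃ < t₂ ∧ t₂ - δ < t₃ :=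
    ⟨max t₁ (t₂ - δ / 2), le_max_left _ _, max_lt ht (by linarith),
      lt_of_lt_of_le (by linarith) (le_max_right _ _)⟩
  have hI3 : ∀ t ∈ Icc t₃ t₂, t ∈ J ∧ |t - t₂| < δ := by
    intro t ht'
    refine ⟨hIJ ⟨ht31.trans ht'.1, ht'.2⟩, ?_⟩
    rw [abs_lt]
    constructor
    · linarith [ht'.1]
    · linarith [ht'.2]
  obtain ⟨δ₀, hδ₀, hBδ⟩ : ∃ δ₀ : ℝ, 0 < δ₀ ∧ ∀ q ∈ (closure V ∩ Vᶜ : Set (M × M)) ×ˢ Icc t₃ t₂,
      δ₀ ≤ ‖F q.1.1 q.2 - F q.1.2 q.2‖ := by
    refine (hBd.prod isCompact_Icc).exists_forall_le'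
      (hG.mono fun q hq => ⟨mem_univ _, (hI3 _ hq.2).1⟩) ?_
    rintro ⟨p, t⟩ ⟨hp, ht'⟩
    rw [norm_pos_iff, sub_ne_zero]
    intro heq
    exact hnd p hp.2 (hUi t (hI3 t ht').1 (hI3 t ht').2 p (hVU hp.1) heq)
  -- bound of the curvature
  obtain ⟨C, hC⟩ := (isCompact_univ.prod (isCompact_Icc (a := t₁) (b := t₂))).bddAbove_image
    (f := fun z : M × ℝ => AA (n := n) F z.1 z.2) (hcA.mono fun q hq => ⟨mem_univ _, hIJ hq.2⟩)
  obtain ⟨S, hS, hS0⟩ : ∃ S : ℝ, S = Real.sqrt (max C 0) ∧ 0 ≤ S :=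
    ⟨_, rfl, Real.sqrt_nonneg _⟩
  obtain ⟨r0, hr0, hr0'⟩ : ∃ r0, r0 = rr n t₂ ∧ 0 < r0 := ⟨_, rfl, hfl.r0 t₂ ht2J⟩
  obtain ⟨s0, hs0⟩ : ∃ s0, s0 = (S + 1 + k / r0) / (1 - k) + 1 := ⟨_, rfl⟩
  have hpos : 0 < 4 / (s0 ^ 2 + 1 / r0 + 1) := by positivity
  -- choice of the time
  have htend : Tendsto (fun t => ‖F x' t - F y' t‖) (𝓝[<] t₂) (𝓝 0) := by
    have h1 : ContinuousOn (fun t => ‖F x' t - F y' t‖) J := by
      have := hG.comp (f := fun t : ℝ => (((x', y') : M × M), t)) (s := J) (by fun_prop)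
        (fun t ht' => ⟨mem_univ _, ht'⟩)
      exact this
    have h2 := (h1.continuousAt (hF.op.mem_nhds ht2J)).tendsto
    rw [hxy, sub_self, norm_zero] at h2
    exact h2.mono_left nhdsWithin_le_nhds
  obtain ⟨t, ⟨htlt, htd⟩, ht3⟩ : ∃ t, (t < t₂ ∧
      ‖F x' t - F y' t‖ < min δ₀ (min 1 (4 / (s0 ^ 2 + 1 / r0 + 1)))) ∧ t₃ < t := by
    have h1 := htend.eventually_lt_const
      (show (0 : ℝ) < min δ₀ (min 1 (4 / (s0 ^ 2 + 1 / r0 + 1))) from
        lt_min hδ₀ (lt_min one_pos hpos))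
    have h2 : ∀ᶠ t in 𝓝[<] t₂, t < t₂ := self_mem_nhdsWithin
    have h3 : ∀ᶠ t in 𝓝[<] t₂, t₃ < t :=
      nhdsWithin_le_nhds (Ioi_mem_nhds ht32)
    exact ((h2.and h1).and h3).exists
  have htI : t ∈ Icc t₃ t₂ := ⟨ht3.le, htlt.le⟩
  have htJ : t ∈ J := (hI3 t htI).1
  have htco : t ∈ Ico t₁ t₂ := ⟨ht31.trans ht3.le, htlt⟩
  obtain ⟨hinjt, hpin⟩ := hP t htco
  have hcont : Continuous (fun p : M × M => ‖F p.1 t - F p.2 t‖) := by
    rw [← continuousOn_univ]
    exact hG.comp (f := fun p : M × M => (p, t)) (by fun_prop)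
      (fun p _ => ⟨mem_univ _, htJ⟩)
  obtain ⟨⟨x, y⟩, hxyK, hmin⟩ := hK.exists_isMinOn
    ⟨(x', y'), fun h => hxyU (hVU (subset_closure h))⟩ hcont.continuousOn
  have hmin' : ∀ p ∈ (Vᶜ : Set (M × M)), ‖F x t - F y t‖ ≤ ‖F p.1 t - F p.2 t‖ :=
    fun p hp => hmin hp
  have hd1 : ‖F x t - F y t‖ ≤ ‖F x' t - F y' t‖ :=
    hmin' (x', y') (fun h => hxyU (hVU (subset_closure h)))
  have hxny : x ≠ y := hnd (x, y) hxyK
  have hFne : F y t ≠ F x t := fun h => hxny (hinjt h).symm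
  have hncl : (x, y) ∉ closure V := by
    intro hcl
    have h1 := hBδ ((x, y), t) ⟨⟨hcl, hxyK⟩, htI⟩
    have h2 := lt_of_lt_of_le htd (min_le_left _ _)
    simp only at h1
    linarith
  -- the critical point
  obtain ⟨x₀, hx₀⟩ : ∃ x₀, x₀ = chartAt (EE n) x x := ⟨_, rfl⟩
  have hsym : (chartAt (EE n) x).symm x₀ = x := by
    rw [hx₀]
    exact (chartAt (EE n) x).left_inv (mem_chart_source _ x)
  have hLI : LI (loc (n := n) F x t) x₀ := by
    rw [hx₀]
    exact hF.imm x t htJ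
  have hfx : loc (n := n) F x t x₀ = F x t := by
    unfold loc
    rw [hsym]
  have hdf := diff hn1 hLI
  have hct : ContinuousAt (chartAt (EE n) x).symm x₀ := by
    rw [hx₀]
    exact (chartAt (EE n) x).continuousAt_symm (mem_chart_target _ x)
  have hw : ∀ i, (inner ℝ (dv1 (loc (n := n) F x t) x₀ i) (F y t - F x t) : ℝ) = 0 := by
    intro i
    have h1 : IsLocalMin (fun z => ‖F y t - loc (n := n) F x t z‖ ^ 2) x₀ := by
      have h2 : ∀ᶠ z in 𝓝 x, (z, y) ∈ (closure V)ᶜ := by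
        have h3 : Continuous (fun z : M => (z, y)) := by fun_prop
        exact h3.continuousAt.preimage_mem_nhds (isClosed_closure.isOpen_compl.mem_nhds hncl)
      have h4 : ∀ᶠ z in 𝓝 x₀, ((chartAt (EE n) x).symm z, y) ∈ (closure V)ᶜ := by
        have h5 := hct.tendsto
        rw [hsym] at h5
        exact h5.eventually h2
      filter_upwards [h4] with z hz
      have h5 := hmin' ((chartAt (EE n) x).symm z, y) (fun h => hz (subset_closure h))
      rw [hfx, norm_sub_rev (F y t) (F x t)]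
      unfold loc
      rw [norm_sub_rev (F y t)]
      exact pow_le_pow_left₀ (norm_nonneg _) h5 2
    have h2 := crit hdf (F y t) h1 i
    rwa [hfx] at h2
  have hX : ∀ i, (inner ℝ (dv1 (loc (n := n) F x t) x₀ i) (F x t) : ℝ) = 0 := by
    intro i
    have h1 : IsLocalMin (fun z => ‖0 - loc (n := n) F x t z‖ ^ 2) x₀ := by
      refine Filter.Eventually.of_forall fun z => le_of_eq ?_
      unfold loc
      simp only [zero_sub, norm_neg]
      rw [hfl.sph _ t htJ, hfl.sph _ t htJ]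
    have h2 := crit hdf 0 h1 i
    rw [hfx, zero_sub, inner_neg_right, neg_eq_zero] at h2
    exact h2
  have hTS : TS (n := n) F x t =
      Submodule.span ℝ (range fun i : Fin n => dv1 (loc (n := n) F x t) x₀ i) := by
    rw [hx₀]
    rfl
  have hr : 0 < rr n t := hfl.r0 t htJ
  have hgeo := geo (F x t) (ν x t) (F y t - F x t) (TS (n := n) F x t)
    (by
      rw [hTS, finrank_span_eq_card hLI, Fintype.card_fin])
    hr (hfl.sph x t htJ) (hfl.nν x t htJ) (hfl.Fν x t htJ)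
    (by rw [hTS]; exact span_perp _ _ hX)
    (hfl.tν x t htJ) (by rw [hTS]; exact span_perp _ _ hw)
  obtain ⟨D, hD⟩ : ∃ D, D = ‖F y t - F x t‖ ^ 2 := ⟨_, rfl⟩
  have hD0 : 0 < D := by
    rw [hD]
    exact pow_pos (norm_pos_iff.2 (sub_ne_zero.2 hFne)) 2
  have hwX : (inner ℝ (F y t - F x t) (F x t) : ℝ) = -D / 2 := by
    have h1 : ‖F y t‖ ^ 2 = ‖F x t‖ ^ 2 + 2 * inner ℝ (F x t) (F y t - F x t) +
        ‖F y t - F x t‖ ^ 2 := by
      rw [← norm_add_sq_real, add_sub_cancel]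
    rw [hfl.sph y t htJ, hfl.sph x t htJ, ← hD] at h1
    rw [real_inner_comm]
    linarith
  rw [hwX, ← hD] at hgeo
  obtain ⟨z₁, hz₁⟩ : ∃ z, z = zch F ν x y t := ⟨_, rfl⟩
  have hz₁2 : z₁ ^ 2 = 4 / D - 1 / rr n t := by
    have h1 : z₁ = 2 * inner ℝ (F y t - F x t) (ν x t) / D := by
      rw [hz₁, hD]
      rfl
    have h2 : (inner ℝ (F y t - F x t) (ν x t) : ℝ) ^ 2 = D - (-D / 2) ^ 2 / rr n t := by
      linarith
    have h3 : z₁ ^ 2 = 4 * (inner ℝ (F y t - F x t) (ν x t) : ℝ) ^ 2 / D ^ 2 := by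
      rw [h1]
      ring
    rw [h3, h2]
    field_simp
    ring
  obtain ⟨c, hc⟩ := unit_c hn1 hLI
  have hgn : gn F x t c = 1 := by
    rw [← hc, hx₀]
    rfl
  have hz₂ : |hn F ν x t c| ≤ S := by
    have h1 : ‖An F x t c‖ ^ 2 ≤ AA (n := n) F x t := by
      have := An_le hFR hLI c hc
      rw [hx₀] at this
      exact this
    have h2 : AA (n := n) F x t ≤ max C 0 :=
      (hC ⟨(x, t), ⟨mem_univ _, htco.1, htlt.le⟩, rfl⟩).trans (le_max_left _ _)
    have h3 : |hn F ν x t c| ≤ ‖An F x t c‖ := by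
      have h4 := abs_real_inner_le_norm (An F x t c) (ν x t)
      rw [hfl.nν x t htJ, mul_one] at h4
      exact h4
    refine h3.trans ?_
    rw [hS]
    exact Real.le_sqrt_of_sq_le (h1.trans h2)
  have hp := hpin x z₁ (Or.inl ⟨y, hFne, hz₁⟩) (hn F ν x t c) (Or.inr ⟨c, hgn, rfl⟩)
  have hrr : r0 ≤ rr n t := by
    rw [hr0]
    unfold rr
    have : (0 : ℝ) ≤ 2 * n := by positivity
    nlinarith
  have hD1 : D < 4 / (s0 ^ 2 + 1 / r0 + 1) := by
    have h1 : ‖F y t - F x t‖ < min 1 (4 / (s0 ^ 2 + 1 / r0 + 1)) := by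
      rw [norm_sub_rev]
      exact lt_of_le_of_lt hd1 (lt_of_lt_of_le htd (min_le_right _ _))
    have h2 := lt_of_lt_of_le h1 (min_le_left _ _)
    have h3 := lt_of_lt_of_le h1 (min_le_right _ _)
    have h4 : D ≤ ‖F y t - F x t‖ := by
      rw [hD, pow_two]
      exact mul_le_of_le_one_right (norm_nonneg _) h2.le
    exact lt_of_le_of_lt h4 h3
  exact fin_ineq hk1 hk0 hS0 hr0' hrr hD0 hs0 hD1 hz₁2 hz₂ hp

end Helper47.HSF
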